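import Pool.Agent.Lib.MP_16285c_agX.G.Spec
import Mathlib.RingTheory.AlgebraicIndependent.TranscendenceBasis
import Mathlib.RingTheory.AlgebraicIndependent.Transcendental

/-!
# The theorem for an arbitrary variety (G8)
-/

set_option autoImplicit false

namespace Pool.Agent.Lib.MP_16285c_agX

open MvPolynomial
open Pool.Agent.Lib.MP_16285c_ag (RM)
open Pool.Agent.ZDO (Wd Jc dd nn)
open Pool.Agent.Lib.MP_16285c_agN (fr)
open Pool.Agent.Lib.MP_16285c_agS.G (FF cls ValAt)

namespace GXM.Var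

variable {k : Type} [Field k] {m d : ℕ} (I : Ideal (MvPolynomial (Fin m) k)) [I.IsPrime]

omit [I.IsPrime] in
theorem cls_eq (A : MvPolynomial (Fin m) k) : cls I A = aeval (fun i => cls I (X i)) A := by
  have h : (IsScalarTower.toAlgHom k (MvPolynomial (Fin m) k ⧸ I) (FF I)).comp (Ideal.Quotient.mkₐ k I) =
      aeval (fun i => cls I (X i)) := by
    apply algHom_ext
    intro i
    rw [aeval_X]
    rfl
  rw [← h]
  rfl

theorem top_eq : IntermediateField.adjoin k (Set.range fun i => cls I (X i)) = ⊤ := by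
  rw [eq_top_iff]
  intro z _
  obtain ⟨a, s, hs, rfl⟩ := IsFractionRing.div_surjective (A := MvPolynomial (Fin m) k ⧸ I) z
  have key : ∀ a : MvPolynomial (Fin m) k ⧸ I, algebraMap (MvPolynomial (Fin m) k ⧸ I) (FF I) a ∈
      IntermediateField.adjoin k (Set.range fun i => cls I (X i)) := by
    intro a
    obtain ⟨A, rfl⟩ := Ideal.Quotient.mk_surjective a
    have h1 : algebraMap (MvPolynomial (Fin m) k ⧸ I) (FF I) (Ideal.Quotient.mk I A) = cls I A := rfl
    rw [h1, cls_eq]
    have h2 : aeval (fun i => cls I (X i)) A ∈ Algebra.adjoin k (Set.range fun i => cls I (X i)) := by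
      rw [Algebra.adjoin_range_eq_range_aeval]
      exact ⟨A, rfl⟩
    exact IntermediateField.algebra_adjoin_le_adjoin k _ h2
  exact div_mem (key a) (key s)

theorem trdeg_eq : Algebra.trdeg k (FF I) = Algebra.trdeg k (MvPolynomial (Fin m) k ⧸ I) := by
  have h1 := trdeg_add_eq k (MvPolynomial (Fin m) k ⧸ I) (A := FF I)
  have h3 : Algebra.IsAlgebraic (MvPolynomial (Fin m) k ⧸ I) (FF I) :=
    IsLocalization.isAlgebraic _ (nonZeroDivisors (MvPolynomial (Fin m) k ⧸ I))
  have h2 : Algebra.trdeg (MvPolynomial (Fin m) k ⧸ I) (FF I) = 0 := trdeg_eq_zero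
  rw [h2, add_zero] at h1
  exact h1.symm

theorem aeval_self (w : Fin (d + 1) → k) (A : MvPolynomial (Fin (d + 1)) k) : aeval w A = eval w A := by
  rw [← coe_aeval_eq_eval]
  rfl

/-- The next point. -/
theorem fvn_next {f : RM k (d + 1)} {w w' : Fin (d + 1) → k} (h : f.Next w w') : fvn f w = w' := by
  funext i
  rw [fvn, aeval_self, aeval_self, div_eq_iff (h i).1]
  exact (h i).2.symm

end GXM.Var

open GXM.Var in
/-- (G8) The theorem. -/
theorem tVarX : StmtModelX → StmtPrimX → StmtAmbX → StmtNoInvX → StmtPtsX → StmtHcn → StmtGroX → StmtZeroX →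
    StmtVarX := by
  intro hModel hPrim hAmb hNo hPts hHc hGro hZero k _ _ _ m I _ d hd φ hlam hinv b hb
  rcases Nat.eq_zero_or_pos d with h0 | hd1
  · refine hZero k m I ?_ φ b hb
    rw [hd, h0, Nat.cast_zero]
  obtain ⟨P, ξ, hP, hM, hG⟩ := hPrim k (FF I) d m (fun i => cls I (X i)) (top_eq I)
    ((trdeg_eq I).trans hd)
  obtain ⟨f, hf, hfv⟩ := hAmb k (FF I) d P ξ φ hP hM hG
  have hNI : NoIX f P := hNo k (FF I) d P f ξ φ hG hf hfv hinv
  obtain ⟨c, Y, e', Z, hc0, he0, hY, hZ, hpts⟩ := hPts k m I d P ξ hP hG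
  obtain ⟨hβ, Υ, hΥ, hdense⟩ := hpts b hb
  set e := c * hatX c Y e'.totalDegree e' with he
  set β := e * hatX c Y b.totalDegree b with hβdef
  have hPe : ¬ P ∣ e := fun h => hβ (h.mul_right _)
  have hcβ : c ∣ β := (Dvd.intro _ rfl : c ∣ e).mul_right _
  have hgr : GrX P e f := hGro k d P (FF I) ξ φ f m (fun i => cls I (X i)) c Y e' Z hP hM hG hf hfv hc0 hY
    (by rw [← cls_eq]; exact he0) (fun j => by rw [← cls_eq, ← cls_eq]; exact hZ j) hlam
  obtain ⟨w, hw1, hw2, hw3⟩ := hModel k d P e f hd1 hP hM hf hNI hPe hgr β hβ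
  have hden : ∀ i, aeval ξ (f.den i) ≠ 0 := fun i h => hf.1 i ((hG.ker _).mp h)
  have hfv' : fvn f ξ = fun i => φ (ξ i) := funext hfv
  have hφ : ∀ A : MvPolynomial (Fin (d + 1)) k, aeval (fvn f ξ) A = φ (aeval ξ A) := by
    intro A
    have h := congrArg (fun g : MvPolynomial (Fin (d + 1)) k →ₐ[k] FF I => g A) (comp_aeval ξ φ)
    rw [hfv']
    exact h.symm
  refine ⟨fun n => Υ (w n), ?_, ?_⟩
  · intro n
    obtain ⟨h1, h2, h3, h4⟩ := hΥ (w n) (hw2 n).1 (hw2 n).2
    obtain ⟨h1', -, -, -⟩ := hΥ (w (n + 1)) (hw2 (n + 1)).1 (hw2 (n + 1)).2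
    refine ⟨h2, h3, ?_⟩
    intro i
    have hden' : ∀ i, aeval (w n) (f.den i) ≠ 0 := by
      intro i
      rw [aeval_self]
      exact (hw1 n i).1
    have hdd : eval (w n) (dd f) ≠ 0 := by
      rw [dd, map_prod]
      exact Finset.prod_ne_zero_iff.mpr fun l _ => (hw1 n l).1
    have hc' : eval (w (n + 1)) c ≠ 0 := by
      intro h0
      obtain ⟨e₁, he₁⟩ := hcβ
      apply (hw2 (n + 1)).2
      rw [he₁, map_mul, h0, zero_mul]
    have hnx : fvn f (w n) = w (n + 1) := fvn_next (hw1 n)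
    have e1 : ∀ A : MvPolynomial (Fin (d + 1)) k, A.totalDegree ≤ max (Y i).totalDegree c.totalDegree →
        eval (w n) (hcn f (max (Y i).totalDegree c.totalDegree) A) =
          eval (w n) (dd f) ^ (max (Y i).totalDegree c.totalDegree) * eval (w (n + 1)) A := by
      intro A hA
      have h := hHc.2.1 k k (d + 1) f _ A (w n) hA hden'
      rw [hnx, aeval_self, aeval_self, aeval_self] at h
      exact h
    have e2 : ∀ A : MvPolynomial (Fin (d + 1)) k, A.totalDegree ≤ max (Y i).totalDegree c.totalDegree →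
        aeval ξ (hcn f (max (Y i).totalDegree c.totalDegree) A) =
          aeval ξ (dd f) ^ (max (Y i).totalDegree c.totalDegree) * φ (aeval ξ A) := by
      intro A hA
      have h := hHc.2.1 k (FF I) (d + 1) f _ A ξ hA hden
      rw [hφ] at h
      exact h
    have hB : eval (w n) (hcn f (max (Y i).totalDegree c.totalDegree) c) ≠ 0 := by
      rw [e1 c (le_max_right _ _)]
      exact mul_ne_zero (pow_ne_zero _ hdd) hc'
    have hval := h4 (φ (cls I (X i))) (hcn f (max (Y i).totalDegree c.totalDegree) (Y i))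
      (hcn f (max (Y i).totalDegree c.totalDegree) c) (by
        rw [e2 c (le_max_right _ _), e2 (Y i) (le_max_left _ _), ← hY i, map_mul]
        ring) hB
    have hq : eval (w n) (hcn f (max (Y i).totalDegree c.totalDegree) (Y i)) /
        eval (w n) (hcn f (max (Y i).totalDegree c.totalDegree) c) = Υ (w (n + 1)) i := by
      rw [div_eq_iff hB, e1 c (le_max_right _ _), e1 (Y i) (le_max_left _ _), ← h1' i]
      ring
    rw [hq] at hval
    exact hval
  · intro A hA
    obtain ⟨A', hA', hA2⟩ := hdense A hA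
    obtain ⟨n, hn⟩ := hw3 A' hA'
    exact ⟨n, hA2 (w n) (hw2 n).1 (hw2 n).2 hn⟩

end Pool.Agent.Lib.MP_16285c_agX
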