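import Pool.Agent.Lib.MP_16285c_agX.G.Spec

/-!
# The ambient map (G3)
-/

set_option autoImplicit false

namespace Pool.Agent.Lib.MP_16285c_agX

open MvPolynomial
open Pool.Agent.Lib.MP_16285c_ag (RM)
open Pool.Agent.ZDO (Wd Jc dd nn)
open Pool.Agent.Lib.MP_16285c_agN (fr)

namespace GXM.Amb

/-- Fractions. -/
private theorem frac {k E : Type} [Field k] [Field E] [Algebra k E] {n : ℕ} (ξ : Fin (n + 1) → E)
    (h : IntermediateField.adjoin k (Set.range ξ) = ⊤) (t : E) :
    ∃ r q : MvPolynomial (Fin (n + 1)) k, aeval ξ q ≠ 0 ∧ aeval ξ q * t = aeval ξ r := by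
  have ht : t ∈ IntermediateField.adjoin k (Set.range ξ) := by
    rw [h]
    exact IntermediateField.mem_top
  obtain ⟨r, q, h⟩ := (IntermediateField.mem_adjoin_range_iff k ξ t).1 ht
  by_cases hq : aeval ξ q = 0
  · refine ⟨0, 1, by simp, ?_⟩
    rw [h, hq]
    simp
  · refine ⟨r, q, hq, ?_⟩
    rw [h]
    field_simp

/-- Common denominators. -/
private theorem common {k E : Type} [Field k] [Field E] [Algebra k E] {n : ℕ} (ξ : Fin (n + 1) → E)
    (h : IntermediateField.adjoin k (Set.range ξ) = ⊤) (t : Fin (n + 1) → E) :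
    ∃ (e : MvPolynomial (Fin (n + 1)) k) (N : Fin (n + 1) → MvPolynomial (Fin (n + 1)) k), aeval ξ e ≠ 0 ∧
      ∀ i, aeval ξ e * t i = aeval ξ (N i) := by
  choose r q hq hr using fun i => frac ξ h (t i)
  refine ⟨∏ i, q i, fun i => (∏ j ∈ Finset.univ.erase i, q j) * r i, ?_, fun i => ?_⟩
  · rw [map_prod]
    exact Finset.prod_ne_zero_iff.2 fun i _ => hq i
  · rw [map_mul, map_prod, map_prod, ← hr i,
      ← Finset.mul_prod_erase Finset.univ (fun j => aeval ξ (q j)) (Finset.mem_univ i)]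
    ring

/-- The ambient maps. -/
private noncomputable def F {k : Type} [Field k] {n : ℕ} (P e : MvPolynomial (Fin (n + 1)) k)
    (N : Fin (n + 1) → MvPolynomial (Fin (n + 1)) k) (l : MvPolynomial (Fin (n + 1)) k) : RM k (n + 1) where
  num := Fin.cons (α := fun _ => MvPolynomial (Fin (n + 1)) k) (N 0 + l * P) fun i => N i.succ
  den := fun _ => e

/-- The difference of the two Jacobian determinants. -/
private theorem diff {k : Type} [Field k] {n : ℕ} (P e : MvPolynomial (Fin (n + 1)) k)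
    (N : Fin (n + 1) → MvPolynomial (Fin (n + 1)) k) :
    ∃ Q : MvPolynomial (Fin (n + 1)) k, Jc (F P e N 1) - Jc (F P e N 0) =
      e * (rowsX P (F P e N 0)).det + P * Q := by
  classical
  let M : Matrix (Fin (n + 1)) (Fin (n + 1)) (MvPolynomial (Fin (n + 1)) k) :=
    Matrix.of fun i l => Wd (F P e N 0) i l
  have hs : ∀ (l : MvPolynomial (Fin (n + 1)) k) (i : Fin n) (j : Fin (n + 1)),
      Wd (F P e N l) i.succ j = M i.succ j := fun l i j => rfl
  have h0 : ∀ j, Wd (F P e N 1) 0 j = M 0 j + (pderiv j P * e - P * pderiv j e) := by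
    intro j
    have hM : M 0 j = Wd (F P e N 0) 0 j := rfl
    rw [hM]
    simp only [Wd, F, Fin.cons_zero, one_mul, zero_mul, add_zero, map_add]
    ring
  have h1 : (Matrix.of fun i l => Wd (F P e N 1) i l) =
      M.updateRow 0 (M 0 + (e • (fun j => pderiv j P) + P • fun j => -pderiv j e)) := by
    ext1 i j
    refine Fin.cases ?_ (fun i => ?_) i
    · rw [Matrix.updateRow_self, Matrix.of_apply, h0 j]
      show M 0 j + (pderiv j P * e - P * pderiv j e) = M 0 j + (e * pderiv j P + P * -pderiv j e)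
      ring
    · rw [Matrix.updateRow_ne (Fin.succ_ne_zero i), Matrix.of_apply, hs]
  have h2 : rowsX P (F P e N 0) = M.updateRow 0 fun j => pderiv j P := by
    ext1 i j
    refine Fin.cases ?_ (fun i => ?_) i
    · rw [Matrix.updateRow_self]
      rfl
    · rw [Matrix.updateRow_ne (Fin.succ_ne_zero i)]
      rfl
  refine ⟨(M.updateRow 0 fun j => -pderiv j e).det, ?_⟩
  have h3 : Jc (F P e N 0) = M.det := rfl
  rw [h3, Jc, h1, Matrix.det_updateRow_add, Matrix.det_updateRow_add, Matrix.det_updateRow_smul,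
    Matrix.det_updateRow_smul, Matrix.updateRow_eq_self, h2]
  ring

end GXM.Amb

open GXM.Amb in
theorem tAmbX : StmtJacX → StmtHcn → StmtAmbX := by
  intro hJ hHc k E _ _ _ _ n P ξ ψ hirr hmon hgen
  obtain ⟨e, N, he, hN⟩ := common ξ hgen.top fun i => ψ (ξ i)
  have hP : Prime P := hirr.prime
  have hP0 : aeval ξ P = 0 := (hgen.ker P).2 dvd_rfl
  have hne : ∀ A, aeval ξ A ≠ 0 → ¬ P ∣ A := fun A hA h => hA ((hgen.ker A).2 h)
  have hden : ∀ l i, ¬ P ∣ (F P e N l).den i := fun l i => hne _ he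
  have hfv : ∀ l i, fvn (F P e N l) ξ i = ψ (ξ i) := by
    intro l i
    have h1 : aeval ξ ((F P e N l).num i) = aeval ξ (N i) := by
      refine Fin.cases ?_ (fun i => ?_) i
      · simp [F, hP0]
      · simp [F]
    have h2 : aeval ξ ((F P e N l).den i) = aeval ξ e := rfl
    unfold fvn
    rw [h1, h2, ← hN i, mul_div_cancel_left₀ _ he]
  have hjX : ∀ l, ¬ P ∣ (rowsX P (F P e N l)).det := fun l =>
    hJ k E n P (F P e N l) ξ ψ hirr hmon hgen (hden l) (hfv l)
  have hJc : ∃ l, ¬ P ∣ Jc (F P e N l) := by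
    by_contra hc
    push Not at hc
    obtain ⟨Q, hQ⟩ := diff P e N
    have h1 : P ∣ Jc (F P e N 1) - Jc (F P e N 0) := dvd_sub (hc 1) (hc 0)
    rw [hQ] at h1
    have h2 : P ∣ e * (rowsX P (F P e N 0)).det := (dvd_add_left (Dvd.intro Q rfl)).1 h1
    rcases hP.dvd_or_dvd h2 with h3 | h3
    · exact hne e he h3
    · exact hjX 0 h3
  obtain ⟨l, hl⟩ := hJc
  obtain ⟨-, hb, -, -⟩ := hHc
  refine ⟨F P e N l, ⟨hden l, hl, ?_⟩, hfv l⟩
  set f := F P e N l with hf
  set M := P.totalDegree with hM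
  have hdd : aeval ξ (dd f) ≠ 0 := by
    rw [dd, map_prod]
    exact Finset.prod_ne_zero_iff.2 fun i _ => he
  have h1 : aeval ξ (hcn f M P) = 0 := by
    rw [hb k E (n + 1) f M P ξ le_rfl fun i => he]
    have h2 : aeval (fvn f ξ) P = ψ (aeval ξ P) := by
      have h3 : fvn f ξ = fun i => ψ (ξ i) := funext (hfv l)
      rw [h3]
      exact (MvPolynomial.comp_aeval_apply ξ ψ P).symm
    rw [h2, hP0, map_zero, mul_zero]
  obtain ⟨W, hW⟩ := (hgen.ker _).1 h1
  refine ⟨dd f ^ M, W, hne _ ?_, ?_⟩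
  · rw [map_pow]
    exact pow_ne_zero _ hdd
  · have hX : ∀ A : MvPolynomial (Fin (n + 1)) k,
        aeval (fun i => fr (X i : MvPolynomial (Fin (n + 1)) k)) A = fr A := by
      intro A
      have h3 : (aeval fun i => fr (X i : MvPolynomial (Fin (n + 1)) k)) =
          IsScalarTower.toAlgHom k (MvPolynomial (Fin (n + 1)) k)
            (FractionRing (MvPolynomial (Fin (n + 1)) k)) := by
        refine MvPolynomial.algHom_ext fun i => ?_
        rw [aeval_X]
        rfl
      rw [h3]
      rfl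
    have he0 : e ≠ 0 := by
      intro h
      rw [h, map_zero] at he
      exact he rfl
    have h4 := hb k (FractionRing (MvPolynomial (Fin (n + 1)) k)) (n + 1) f M P
      (fun i => fr (X i : MvPolynomial (Fin (n + 1)) k)) le_rfl fun i => by
        rw [hX]
        exact (map_ne_zero_iff _ (IsFractionRing.injective _ _)).2 he0
    have h5 : aeval (fvn f fun i => fr (X i : MvPolynomial (Fin (n + 1)) k)) P = f.comp P := by
      have h6 : (fvn f fun i => fr (X i : MvPolynomial (Fin (n + 1)) k)) = fun i =>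
          fr (f.num i) / fr (f.den i) := by
        funext i
        unfold fvn
        rw [hX, hX]
      rw [h6]
      rfl
    rw [h5, hX, hX] at h4
    rw [← hW, h4]
    exact congrArg (· * f.comp P) (map_pow (algebraMap (MvPolynomial (Fin (n + 1)) k)
      (FractionRing (MvPolynomial (Fin (n + 1)) k))) (dd f) M).symm

end Pool.Agent.Lib.MP_16285c_agX
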