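import Pool.Agent.Lib.MP_16285c_agX.G.Spec
import Mathlib.FieldTheory.PrimitiveElement
import Mathlib.FieldTheory.Minpoly.IsIntegrallyClosed
import Mathlib.RingTheory.AlgebraicIndependent.TranscendenceBasis

/-!
# A model of a variety: a hypersurface in affine space
-/

set_option autoImplicit false

namespace Pool.Agent.Lib.MP_16285c_agX

open MvPolynomial
open scoped IntermediateField
open Pool.Agent.Lib.MP_16285c_ag Pool.Agent.Lib.MP_16285c_agN

namespace GPrimXM

theorem core {k E : Type} [Field k] [CharZero k] [Field E] [Algebra k E] (n m : ℕ) (y : Fin m → E)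
    (hy : IntermediateField.adjoin k (Set.range y) = ⊤) (x : Fin n → E)
    (hx : AlgebraicIndependent k x)
    (halg : Algebra.IsAlgebraic (Algebra.adjoin k (Set.range x)) E) :
    ∃ (P : MvPolynomial (Fin (n + 1)) k) (ξ : Fin (n + 1) → E), Irreducible P ∧ MonZ P ∧ GenN P ξ := by
  classical
  let _ : Algebra (MvPolynomial (Fin n) k) E :=
    (aeval x : MvPolynomial (Fin n) k →ₐ[k] E).toRingHom.toAlgebra
  have hRE : ∀ a : MvPolynomial (Fin n) k,
      algebraMap (MvPolynomial (Fin n) k) E a = aeval x a := fun _ => rfl
  have hinj : Function.Injective (algebraMap (MvPolynomial (Fin n) k) E) := hx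
  have : IsScalarTower k (MvPolynomial (Fin n) k) E := IsScalarTower.of_algebraMap_eq fun c => by
    rw [hRE, MvPolynomial.algebraMap_eq, aeval_C]
  have : FaithfulSMul (MvPolynomial (Fin n) k) E :=
    (faithfulSMul_iff_algebraMap_injective _ E).2 hinj
  have halgR : Algebra.IsAlgebraic (MvPolynomial (Fin n) k) E := by
    refine ⟨fun e => ?_⟩
    obtain ⟨p, hp, hpe⟩ := halg.isAlgebraic e
    refine ⟨p.map (hx.aevalEquiv.symm : _ →+* MvPolynomial (Fin n) k), ?_, ?_⟩
    · rwa [ne_eq, Polynomial.map_eq_zero_iff]
      exact hx.aevalEquiv.symm.injective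
    · have hc : (algebraMap (MvPolynomial (Fin n) k) E).comp
          (hx.aevalEquiv.symm : _ →+* MvPolynomial (Fin n) k) =
          algebraMap (Algebra.adjoin k (Set.range x)) E := by
        ext s
        obtain ⟨r, rfl⟩ := hx.aevalEquiv.surjective s
        rw [RingHom.comp_apply]
        have h1 : (hx.aevalEquiv.symm : _ →+* MvPolynomial (Fin n) k) (hx.aevalEquiv r) = r :=
          hx.aevalEquiv.symm_apply_apply r
        rw [h1, hRE, hx.algebraMap_aevalEquiv]
      rw [Polynomial.aeval_def, Polynomial.eval₂_map, hc, ← Polynomial.aeval_def]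
      exact hpe
  let _ : Algebra (FractionRing (MvPolynomial (Fin n) k)) E := FractionRing.liftAlgebra _ E
  have : IsScalarTower (MvPolynomial (Fin n) k) (FractionRing (MvPolynomial (Fin n) k)) E :=
    FractionRing.isScalarTower_liftAlgebra _ E
  have : IsScalarTower k (FractionRing (MvPolynomial (Fin n) k)) E :=
    IsScalarTower.of_algebraMap_eq fun c => by
      rw [IsScalarTower.algebraMap_apply k (MvPolynomial (Fin n) k)
        (FractionRing (MvPolynomial (Fin n) k)), ← IsScalarTower.algebraMap_apply
        (MvPolynomial (Fin n) k) (FractionRing (MvPolynomial (Fin n) k)) E,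
        ← IsScalarTower.algebraMap_apply k (MvPolynomial (Fin n) k) E]
  have : CharZero (FractionRing (MvPolynomial (Fin n) k)) :=
    charZero_of_injective_algebraMap
      (algebraMap k (FractionRing (MvPolynomial (Fin n) k))).injective
  have : Algebra.EssFiniteType k E := by
    refine IntermediateField.fg_top_iff.1 ⟨Finset.univ.image y, ?_⟩
    rw [Finset.coe_image, Finset.coe_univ, Set.image_univ]
    exact hy
  have : Algebra.EssFiniteType (FractionRing (MvPolynomial (Fin n) k)) E :=
    Algebra.EssFiniteType.of_comp k _ E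
  have : Algebra.IsAlgebraic (FractionRing (MvPolynomial (Fin n) k)) E :=
    Algebra.IsAlgebraic.extendScalars (R := MvPolynomial (Fin n) k)
      (IsFractionRing.injective (MvPolynomial (Fin n) k) (FractionRing (MvPolynomial (Fin n) k)))
  have : Module.Finite (FractionRing (MvPolynomial (Fin n) k)) E :=
    Algebra.finite_of_essFiniteType_of_isAlgebraic
  obtain ⟨z', hz'⟩ := Field.exists_primitive_element (FractionRing (MvPolynomial (Fin n) k)) E
  obtain ⟨D, hD, hint⟩ := (halgR.isAlgebraic z').exists_integral_multiple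
  set z : E := D • z' with hz
  -- the polynomial
  set Q : Polynomial (MvPolynomial (Fin n) k) := minpoly (MvPolynomial (Fin n) k) z with hQ
  have hQi : Irreducible Q := minpoly.irreducible hint
  have hev : ∀ A : MvPolynomial (Fin (n + 1)) k, aeval (Fin.cons z x : Fin (n + 1) → E) A =
      Polynomial.aeval z (finSuccEquiv k n A) := by
    intro A
    have h1 : (aeval (Fin.cons z x : Fin (n + 1) → E) : MvPolynomial (Fin (n + 1)) k →ₐ[k] E) =
        ((Polynomial.aeval z : Polynomial (MvPolynomial (Fin n) k) →ₐ[MvPolynomial (Fin n) k]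
          E).restrictScalars k).comp (finSuccEquiv k n).toAlgHom := by
      refine MvPolynomial.algHom_ext fun i => ?_
      refine Fin.cases ?_ (fun j => ?_) i
      · change aeval (Fin.cons z x : Fin (n + 1) → E) (X 0) =
          Polynomial.aeval z (finSuccEquiv k n (X 0))
        rw [aeval_X, finSuccEquiv_X_zero, Polynomial.aeval_X]
        rfl
      · change aeval (Fin.cons z x : Fin (n + 1) → E) (X j.succ) =
          Polynomial.aeval z (finSuccEquiv k n (X j.succ))
        rw [aeval_X, finSuccEquiv_X_succ, Polynomial.aeval_C, hRE, aeval_X]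
        rfl
    exact DFunLike.congr_fun h1 A
  refine ⟨(finSuccEquiv k n).symm Q, (Fin.cons z x : Fin (n + 1) → E), ?_, ?_, ?_, ?_⟩
  · exact (MulEquiv.irreducible_iff (finSuccEquiv k n).symm).2 hQi
  · change (finSuccEquiv k n ((finSuccEquiv k n).symm Q)).Monic
    rw [AlgEquiv.apply_symm_apply]
    exact minpoly.monic hint
  · intro A
    rw [hev, minpoly.isIntegrallyClosed_dvd_iff hint, ← hQ]
    rw [← map_dvd_iff (finSuccEquiv k n), AlgEquiv.apply_symm_apply]
  · set N : IntermediateField k E := IntermediateField.adjoin k (Set.range (Fin.cons z x : Fin (n + 1) → E))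
      with hN
    have hzN : z ∈ N := IntermediateField.subset_adjoin k _ ⟨0, rfl⟩
    have hxN : ∀ j, x j ∈ N := fun j => IntermediateField.subset_adjoin k _ ⟨j.succ, rfl⟩
    have hRN : ∀ a : MvPolynomial (Fin n) k, algebraMap (MvPolynomial (Fin n) k) E a ∈ N := by
      intro a
      rw [hRE]
      have h1 : aeval x a ∈ Algebra.adjoin k (Set.range x) := by
        rw [Algebra.adjoin_range_eq_range_aeval]
        exact ⟨a, rfl⟩
      have h2 : Algebra.adjoin k (Set.range x) ≤ N.toSubalgebra := by
        refine Algebra.adjoin_le ?_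
        rintro _ ⟨j, rfl⟩
        exact hxN j
      exact h2 h1
    have hFN : ∀ a : FractionRing (MvPolynomial (Fin n) k),
        algebraMap (FractionRing (MvPolynomial (Fin n) k)) E a ∈ N.toSubfield := by
      intro a
      obtain ⟨u, v, _, rfl⟩ := IsFractionRing.div_surjective (A := MvPolynomial (Fin n) k) a
      rw [map_div₀, ← IsScalarTower.algebraMap_apply, ← IsScalarTower.algebraMap_apply]
      exact N.div_mem (hRN u) (hRN v)
    let N' : IntermediateField (FractionRing (MvPolynomial (Fin n) k)) E :=
      N.toSubfield.toIntermediateField hFN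
    have hz'N : z' ∈ N' := by
      have h1 : z' = z / algebraMap (MvPolynomial (Fin n) k) E D := by
        have h2 : algebraMap (MvPolynomial (Fin n) k) E D ≠ 0 := by
          rw [ne_eq, map_eq_zero_iff _ hinj]
          exact hD
        rw [hz, Algebra.smul_def, mul_div_cancel_left₀ _ h2]
      rw [h1]
      exact N.div_mem hzN (hRN D)
    have h3 : (⊤ : IntermediateField (FractionRing (MvPolynomial (Fin n) k)) E) ≤ N' := by
      rw [← hz', IntermediateField.adjoin_simple_le_iff]
      exact hz'N
    rw [eq_top_iff]
    intro e _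
    exact h3 (IntermediateField.mem_top (x := e))

end GPrimXM

theorem tPrimX : StmtPrimX := by
  intro k E _ _ _ _ n m y hy htr
  obtain ⟨ι, x, hx⟩ := exists_isTranscendenceBasis' k E
  have h1 : Cardinal.mk ι = Cardinal.mk (Fin n) := by
    rw [hx.cardinalMk_eq_trdeg, htr]
    simp
  obtain ⟨e⟩ := Cardinal.eq.1 h1
  have h2 : Set.range (x ∘ e.symm) = Set.range x := e.symm.surjective.range_comp x
  refine GPrimXM.core n m y hy (x ∘ e.symm) (hx.1.comp e.symm e.symm.injective) ?_
  rw [h2]
  exact hx.isAlgebraic

end Pool.Agent.Lib.MP_16285c_agX
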