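import Pool.Agent.Lib.MP_16285c_agX.G.Spec

/-!
# Points of the model and points of the variety (G5)
-/

set_option autoImplicit false

namespace Pool.Agent.Lib.MP_16285c_agX

open Pool.Agent.Lib.MP_16285c_ag Pool.Agent.Lib.MP_16285c_agN
open Pool.Agent.Lib.MP_16285c_agS.G (FF cls ValAt)

namespace GPtsXM

open MvPolynomial

variable {k : Type} [Field k]

theorem ae {n : ℕ} (w : Fin n → k) (A : MvPolynomial (Fin n) k) : (aeval w A : k) = eval w A := by
  rw [aeval_def, Algebra.algebraMap_self]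
  rfl

section gen

variable {E : Type} [Field E] [Algebra k E] {n : ℕ} {P : MvPolynomial (Fin n) k} {ξ : Fin n → E}

theorem frac (hG : GenN P ξ) (h : E) : ∃ A B : MvPolynomial (Fin n) k, aeval ξ B ≠ 0 ∧
    h * aeval ξ B = aeval ξ A := by
  have h1 : h ∈ IntermediateField.adjoin k (Set.range ξ) := by
    rw [hG.top]
    exact IntermediateField.mem_top
  rw [IntermediateField.mem_adjoin_range_iff] at h1
  obtain ⟨r, s, rfl⟩ := h1
  by_cases h0 : aeval ξ s = 0
  · exact ⟨0, 1, by simp, by rw [h0]; simp⟩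
  · exact ⟨r, s, h0, div_mul_cancel₀ _ h0⟩

theorem common (hG : GenN P ξ) {m : ℕ} (h : Fin m → E) :
    ∃ (c : MvPolynomial (Fin n) k) (Y : Fin m → MvPolynomial (Fin n) k), aeval ξ c ≠ 0 ∧
      ∀ i, h i * aeval ξ c = aeval ξ (Y i) := by
  classical
  choose A B hB hAB using fun i => frac hG (h i)
  refine ⟨∏ i, B i, fun i => A i * ∏ j ∈ Finset.univ.erase i, B j, ?_, fun i => ?_⟩
  · rw [map_prod]
    exact Finset.prod_ne_zero_iff.2 fun i _ => hB i
  · rw [← Finset.mul_prod_erase _ _ (Finset.mem_univ i), map_mul, map_mul, ← mul_assoc, hAB]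

end gen

section cls

variable {m : ℕ} (I : Ideal (MvPolynomial (Fin m) k)) [I.IsPrime]

/-- the homomorphism `cls` -/
noncomputable def clsH : MvPolynomial (Fin m) k →ₐ[k] FF I :=
  (IsScalarTower.toAlgHom k (MvPolynomial (Fin m) k ⧸ I) (FF I)).comp (Ideal.Quotient.mkₐ k I)

theorem clsH_apply (A : MvPolynomial (Fin m) k) : clsH I A = cls I A := rfl

theorem cls_eq (A : MvPolynomial (Fin m) k) : aeval (fun i => cls I (X i)) A = cls I A := by
  have h : clsH I = aeval fun i => cls I (X i) := by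
    refine MvPolynomial.algHom_ext fun i => ?_
    rw [aeval_X]
    rfl
  rw [← h]
  rfl

theorem cls_zero (A : MvPolynomial (Fin m) k) : cls I A = 0 ↔ A ∈ I := by
  unfold cls
  rw [← Ideal.Quotient.eq_zero_iff_mem]
  exact IsFractionRing.to_map_eq_zero_iff

theorem denom {n : ℕ} (ξ : Fin n → FF I) : ∃ (d : MvPolynomial (Fin m) k)
    (Z : Fin n → MvPolynomial (Fin m) k), d ∉ I ∧ ∀ j, ξ j * cls I d = cls I (Z j) := by
  obtain ⟨d0, hd0⟩ := IsLocalization.exist_integer_multiples_of_finite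
    (nonZeroDivisors (MvPolynomial (Fin m) k ⧸ I)) ξ
  choose z hz using hd0
  obtain ⟨d, hd⟩ := Ideal.Quotient.mk_surjective (I := I) (d0 : MvPolynomial (Fin m) k ⧸ I)
  choose Z hZ using fun j => Ideal.Quotient.mk_surjective (I := I) (z j)
  refine ⟨d, Z, ?_, fun j => ?_⟩
  · intro h
    rw [← Ideal.Quotient.eq_zero_iff_mem, hd] at h
    exact nonZeroDivisors.ne_zero d0.2 h
  · unfold cls
    rw [hd, hZ, hz, Algebra.smul_def, mul_comm]

end cls

end GPtsXM

open MvPolynomial GPtsXM in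
theorem tPtsX (hHat : StmtHat) : StmtPtsX := by
  intro k _ m I _ n P ξ hP hG
  obtain ⟨hat_map, -, -⟩ := hHat
  obtain ⟨c, Y, hc, hY⟩ := common hG fun i => cls I (X i)
  obtain ⟨d, Z, hd, hZ⟩ := denom I ξ
  have hpr : Prime P := hP.prime
  -- values of the transformed polynomials
  have hat1 : ∀ (N : ℕ) (A : MvPolynomial (Fin m) k), A.totalDegree ≤ N →
      aeval ξ (hatX c Y N A) = aeval ξ c ^ N * cls I A := by
    intro N A hN
    rw [hat_map k (MvPolynomial (Fin (n + 1)) k) (FF I) m c Y N A hN (aeval ξ) (fun i => cls I (X i)) hY, cls_eq]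
  have hdiv : ∀ (N : ℕ) (A : MvPolynomial (Fin m) k), A.totalDegree ≤ N →
      (P ∣ hatX c Y N A ↔ A ∈ I) := by
    intro N A hN
    rw [← hG.ker, hat1 N A hN, mul_eq_zero, cls_zero]
    exact or_iff_right (pow_ne_zero _ hc)
  have hPc : ¬ P ∣ c := fun h => hc ((hG.ker c).2 h)
  refine ⟨c, Y, d, Z, hc, fun h => hd ((cls_zero I d).1 h), hY, hZ, fun b hb => ?_⟩
  obtain ⟨Υ, hΥ⟩ : ∃ Υ : (Fin (n + 1) → k) → Fin m → k, ∀ w i, Υ w i = eval w (Y i) / eval w c :=
    ⟨_, fun _ _ => rfl⟩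
  have hΥ1 : ∀ w : Fin (n + 1) → k, eval w c ≠ 0 → ∀ i, Υ w i * eval w c = eval w (Y i) := by
    intro w hw i
    rw [hΥ, div_mul_cancel₀ _ hw]
  have hat2 : ∀ (w : Fin (n + 1) → k), eval w c ≠ 0 → ∀ (N : ℕ) (A : MvPolynomial (Fin m) k),
      A.totalDegree ≤ N → eval w (hatX c Y N A) = eval w c ^ N * eval (Υ w) A := by
    intro w hw N A hN
    have h := hat_map k (MvPolynomial (Fin (n + 1)) k) k m c Y N A hN
      (aeval w : MvPolynomial (Fin (n + 1)) k →ₐ[k] k) (Υ w) (by
      intro i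
      rw [ae, ae]
      exact hΥ1 w hw i)
    rw [ae, ae, ae] at h
    exact h
  have hval : ∀ w : Fin (n + 1) → k,
      eval w (c * hatX c Y d.totalDegree d * hatX c Y b.totalDegree b) ≠ 0 → eval w c ≠ 0 ∧ eval (Υ w) d ≠ 0 ∧
      eval (Υ w) b ≠ 0 := by
    intro w hw
    rw [map_mul, map_mul] at hw
    have h1 := left_ne_zero_of_mul (left_ne_zero_of_mul hw)
    have h2 := right_ne_zero_of_mul (left_ne_zero_of_mul hw)
    have h3 := right_ne_zero_of_mul hw
    rw [hat2 w h1 _ _ le_rfl] at h2 h3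
    exact ⟨h1, right_ne_zero_of_mul h2, right_ne_zero_of_mul h3⟩
  have hvan : ∀ (w : Fin (n + 1) → k) (A : MvPolynomial (Fin (n + 1)) k), eval w P = 0 → P ∣ A →
      eval w A = 0 := by
    rintro w A hw ⟨B, rfl⟩
    rw [map_mul, hw, zero_mul]
  refine ⟨?_, Υ, fun w hw hwβ => ?_, fun A hA => ?_⟩
  · intro h
    rcases hpr.dvd_or_dvd h with h1 | h1
    · rcases hpr.dvd_or_dvd h1 with h2 | h2
      · exact hPc h2
      · exact hd ((hdiv _ _ le_rfl).1 h2)
    · exact hb ((hdiv _ _ le_rfl).1 h1)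
  · obtain ⟨w1, w2, w3⟩ := hval w hwβ
    refine ⟨hΥ1 w w1, fun A hA => ?_, w3, fun h A B hAB hB => ?_⟩
    · have h1 := hvan w _ hw ((hdiv A.totalDegree A le_rfl).2 hA)
      rw [hat2 w w1 _ _ le_rfl] at h1
      exact (mul_eq_zero.1 h1).resolve_left (pow_ne_zero _ w1)
    · -- the coordinates
      have hwZ : ∀ j, w j * eval (Υ w) d = eval (Υ w) (Z j) := by
        intro j
        obtain ⟨N, hN⟩ : ∃ N, N = max d.totalDegree (Z j).totalDegree := ⟨_, rfl⟩
        have n1 : d.totalDegree ≤ N := hN ▸ le_max_left _ _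
        have n2 : (Z j).totalDegree ≤ N := hN ▸ le_max_right _ _
        have h1 : P ∣ X j * hatX c Y N d - hatX c Y N (Z j) := by
          rw [← hG.ker, map_sub, map_mul, aeval_X, hat1 N d n1, hat1 N (Z j) n2, ← hZ j]
          ring
        have h2 := hvan w _ hw h1
        rw [map_sub, map_mul, eval_X, hat2 w w1 N d n1, hat2 w w1 N (Z j) n2] at h2
        have h3 : eval w c ^ N * (w j * eval (Υ w) d - eval (Υ w) (Z j)) = 0 := by
          rw [← h2]
          ring
        exact sub_eq_zero.1 ((mul_eq_zero.1 h3).resolve_left (pow_ne_zero _ w1))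
      obtain ⟨N, hN⟩ : ∃ N, N = max A.totalDegree B.totalDegree := ⟨_, rfl⟩
      have n1 : A.totalDegree ≤ N := hN ▸ le_max_left _ _
      have n2 : B.totalDegree ≤ N := hN ▸ le_max_right _ _
      have t1 : ∀ A : MvPolynomial (Fin (n + 1)) k, A.totalDegree ≤ N →
          cls I (hatX d Z N A) = cls I d ^ N * aeval ξ A := by
        intro A hA
        have h1 := hat_map k (MvPolynomial (Fin m) k) (FF I) (n + 1) d Z N A hA (clsH I) ξ (by
          intro j
          rw [clsH_apply, clsH_apply]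
          exact hZ j)
        rw [clsH_apply, clsH_apply] at h1
        exact h1
      have t2 : ∀ A : MvPolynomial (Fin (n + 1)) k, A.totalDegree ≤ N →
          eval (Υ w) (hatX d Z N A) = eval (Υ w) d ^ N * eval w A := by
        intro A hA
        have h1 := hat_map k (MvPolynomial (Fin m) k) k (n + 1) d Z N A hA
          (aeval (Υ w) : MvPolynomial (Fin m) k →ₐ[k] k) w (by
          intro j
          rw [ae, ae]
          exact hwZ j)
        rw [ae, ae, ae] at h1
        exact h1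
      refine ⟨hatX d Z N A, hatX d Z N B, ?_, ?_, ?_⟩
      · rw [t2 B n2]
        exact mul_ne_zero (pow_ne_zero _ w2) hB
      · rw [t1 A n1, t1 B n2, ← hAB]
        ring
      · rw [t2 A n1, t2 B n2]
        field_simp
  · refine ⟨hatX c Y A.totalDegree A, fun h => hA ((hdiv _ _ le_rfl).1 h), fun w _ hwβ h => ?_⟩
    obtain ⟨w1, -, -⟩ := hval w hwβ
    rw [hat2 w w1 _ _ le_rfl] at h
    exact right_ne_zero_of_mul h

end Pool.Agent.Lib.MP_16285c_agX
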