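import Pool.Agent.Lib.MP_16285c_agX.G.Spec

/-!
# `StmtHat` (G0): clearing denominators
-/

set_option autoImplicit false

namespace Pool.Agent.Lib.MP_16285c_agX

open Pool.Agent.Lib.MP_16285c_ag Pool.Agent.Lib.MP_16285c_agN

namespace GHatM

theorem deg_le {k : Type} [Field k] {m : ℕ} (A : MvPolynomial (Fin m) k) (N : ℕ) (hN : A.totalDegree ≤ N)
    (s : Fin m →₀ ℕ) (hs : s ∈ A.support) : ∑ i, s i ≤ N := by
  have h := MvPolynomial.le_totalDegree hs
  rw [Finsupp.sum_fintype _ _ (fun _ => rfl)] at h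
  exact h.trans hN

theorem hat_map {k R L : Type} [Field k] [CommRing R] [Algebra k R] [CommRing L] [Algebra k L] {m : ℕ} (c : R)
    (Y : Fin m → R) (N : ℕ) (A : MvPolynomial (Fin m) k) (hN : A.totalDegree ≤ N) (θ : R →ₐ[k] L) (u : Fin m → L)
    (hu : ∀ i, u i * θ c = θ (Y i)) : θ (hatX c Y N A) = θ c ^ N * MvPolynomial.aeval u A := by
  rw [MvPolynomial.aeval_def, MvPolynomial.eval₂_eq', Finset.mul_sum, hatX, map_sum]
  refine Finset.sum_congr rfl fun s hs => ?_
  have h := deg_le A N hN s hs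
  have h1 : ∏ i, θ (Y i) ^ s i = (∏ i, u i ^ s i) * θ c ^ (∑ i, s i) := by
    rw [← Finset.prod_pow_eq_pow_sum, ← Finset.prod_mul_distrib]
    exact Finset.prod_congr rfl fun i _ => by rw [← hu i, mul_pow]
  have h2 : θ c ^ N = θ c ^ (N - ∑ i, s i) * θ c ^ (∑ i, s i) := by
    rw [← pow_add, Nat.sub_add_cancel h]
  rw [map_mul, map_mul, map_pow, map_prod, AlgHom.commutes, h2]
  simp only [map_pow]
  rw [h1]
  ring

theorem map_hat {K k : Type} [Field K] [Field k] [Algebra K k] {n m : ℕ} (c : Pl n K) (Y : Fin m → Pl n K) (N : ℕ)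
    (A : MvPolynomial (Fin m) K) : MvPolynomial.map (algebraMap K k) (hatX c Y N A) =
      hatX (MvPolynomial.map (algebraMap K k) c) (fun i => MvPolynomial.map (algebraMap K k) (Y i)) N
        (MvPolynomial.map (algebraMap K k) A) := by
  unfold hatX
  rw [map_sum, MvPolynomial.support_map_of_injective A (algebraMap K k).injective]
  refine Finset.sum_congr rfl fun s _ => ?_
  rw [map_mul, map_mul, map_pow, map_prod, MvPolynomial.coeff_map, MvPolynomial.algebraMap_eq,
    MvPolynomial.algebraMap_eq, MvPolynomial.map_C]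
  simp only [map_pow]

theorem deg_hat {k : Type} [Field k] {n m D : ℕ} (c : Pl n k) (Y : Fin m → Pl n k) (N : ℕ)
    (A : MvPolynomial (Fin m) k) (hN : A.totalDegree ≤ N) (hc : c.totalDegree ≤ D) (hY : ∀ i, (Y i).totalDegree ≤ D) :
    (hatX c Y N A).totalDegree ≤ N * D := by
  unfold hatX
  refine MvPolynomial.totalDegree_finsetSum_le fun s hs => ?_
  have h := deg_le A N hN s hs
  rw [MvPolynomial.algebraMap_eq]
  refine (MvPolynomial.totalDegree_mul _ _).trans ?_
  rw [MvPolynomial.totalDegree_C, zero_add]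
  refine (MvPolynomial.totalDegree_mul _ _).trans ?_
  have h1 : (c ^ (N - ∑ i, s i)).totalDegree ≤ (N - ∑ i, s i) * D :=
    (MvPolynomial.totalDegree_pow _ _).trans (Nat.mul_le_mul_left _ hc)
  have h2 : (∏ i, Y i ^ s i).totalDegree ≤ (∑ i, s i) * D := by
    refine (MvPolynomial.totalDegree_finset_prod _ _).trans ?_
    rw [Finset.sum_mul]
    exact Finset.sum_le_sum fun i _ => (MvPolynomial.totalDegree_pow _ _).trans (Nat.mul_le_mul_left _ (hY i))
  calc (c ^ (N - ∑ i, s i)).totalDegree + (∏ i, Y i ^ s i).totalDegree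
      ≤ (N - ∑ i, s i) * D + (∑ i, s i) * D := Nat.add_le_add h1 h2
    _ = N * D := by rw [← Nat.add_mul, Nat.sub_add_cancel h]

end GHatM

theorem tHat : StmtHat :=
  ⟨fun _ _ _ _ _ _ _ _ _ c Y N A hN θ u hu => GHatM.hat_map c Y N A hN θ u hu,
    fun _ _ _ _ _ _ _ c Y N A => GHatM.map_hat c Y N A,
    fun _ _ _ _ _ c Y N A hN hc hY => GHatM.deg_hat c Y N A hN hc hY⟩

end Pool.Agent.Lib.MP_16285c_agX
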