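import Pool.Agent.Lib.MP_16285c_agX.Top.Defs
import Pool.Agent.Lib.MP_16285c_agX.Box.Spec
import Pool.Agent.Lib.MP_16285c_agS.G.Spec

/-!
# From an arbitrary variety to the model: statements (section G of notes 4871 and 4936)

`I` is a prime ideal of `k[y₁, …, y_m]` with quotient of transcendence degree `n`, `FF I` its function field (`Lib/MP_16285c_agS/G/Spec.lean`: `FF`, `cls`, `ValAt`),
`φ : FF I →ₐ[k] FF I` the homomorphism of a dominant rational self-map of `V(I)`. The model: `P = 0` in affine `(n+1)`-space, `P` monic in `X 0`; a generic point `ξ`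
(`GenN P ξ`, `fvn f ξ` of `Hrn/SpecC.lean`, `hcn`, `StmtHcn` of `Box/Spec.lean`).

Every lemma is a `Prop` with its proof in the docstring; used statements are hypotheses (file `G/X.lean`, `theorem tX : StmtX` or `StmtY → StmtX`, namespace
`Pool.Agent.Lib.MP_16285c_agX`, auxiliary lemmas in the namespace `Pool.Agent.Lib.MP_16285c_agX.GXM`). Most files are edits of landed files of `Lib/MP_16285c_agS/G`.
`Mon P` of `Hrn/Spec.lean` and `MonZ P` of `Defs.lean` are the same by definition (`Iff.rfl`).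
-/

set_option autoImplicit false

namespace Pool.Agent.Lib.MP_16285c_agX

open Pool.Agent.Lib.MP_16285c_ag Pool.Agent.Lib.MP_16285c_agN
open Pool.Agent.Lib.MP_16285c_agS.G (FF cls ValAt)

/-- Clearing denominators: `c ^ N * A(Y / c)`. -/
noncomputable def hatX {k R : Type} [CommRing k] [CommRing R] [Algebra k R] {m : ℕ} (c : R) (Y : Fin m → R)
    (N : ℕ) (A : MvPolynomial (Fin m) k) : R :=
  ∑ s ∈ A.support, algebraMap k R (MvPolynomial.coeff s A) * (c ^ (N - ∑ i, s i) * ∏ i, Y i ^ s i)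

/-- The `r`-th degree of a rational map with components `g` of a variety of dimension `n` with coordinates `y` and function field `E`: linear combinations of `g`. -/
noncomputable def lfX {K E : Type} [Field K] [Field E] [Algebra K E] {m c : ℕ} (A : Fin c → Fin m → K) (g : Fin m → E)
    (i : Fin c) : E := ∑ j, algebraMap K E (A i j) * g j

/-- The field generated by linear combinations of the coordinates `y` and linear combinations of `g`. -/
noncomputable def fldX {K E : Type} [Field K] [Field E] [Algebra K E] {m s r : ℕ} (A : Fin s → Fin m → K)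
    (B : Fin r → Fin m → K) (y g : Fin m → E) : IntermediateField K E :=
  IntermediateField.adjoin K (Set.range (lfX A y) ∪ Set.range (lfX B g))

/-- The `r`-th degree of a rational map with the components `g` (`n` = dimension, `y` = coordinates). -/
noncomputable def degrX (K : Type) {E : Type} [Field K] [Field E] [Algebra K E] {m : ℕ} (n r : ℕ) (y g : Fin m → E) :
    ENNReal :=
  ⨆ (A : Fin (n - r) → Fin m → K) (B : Fin r → Fin m → K), (Module.finrank (fldX A B y g) E : ENNReal)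

/-- The `r`-th dynamical degree of the rational self-map with the homomorphism `φ`. -/
noncomputable def lamX (K : Type) {E : Type} [Field K] [Field E] [Algebra K E] {m : ℕ} (n r : ℕ) (y : Fin m → E)
    (φ : E →ₐ[K] E) : ENNReal :=
  Filter.limsup (fun t : ℕ => degrX K n r y (fun i => (φ ^ t) (y i)) ^ ((t : ℝ)⁻¹)) Filter.atTop

/-- (G0) Properties of `hatX`. PROOF. (1) As `PtsM.hat_map` in `Lib/MP_16285c_agS/G/Pts.lean`. (2) Termwise; the support of `map φ A` is contained in the support of `A`, and the missing terms have the coefficient `φ (coeff s A) = 0`; `MvPolynomial.coeff_map`. (3) `totalDegree` of a sum, product, power; `∑ s i ≤ A.totalDegree ≤ N` for `s` in the support. -/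
def StmtHat : Prop :=
  (∀ (k R L : Type) [Field k] [CommRing R] [Algebra k R] [CommRing L] [Algebra k L] (m : ℕ) (c : R) (Y : Fin m → R)
    (N : ℕ) (A : MvPolynomial (Fin m) k), A.totalDegree ≤ N → ∀ (θ : R →ₐ[k] L) (u : Fin m → L),
    (∀ i, u i * θ c = θ (Y i)) → θ (hatX c Y N A) = θ c ^ N * MvPolynomial.aeval u A) ∧
  (∀ (K k : Type) [Field K] [Field k] [Algebra K k] (n m : ℕ) (c : Pl n K) (Y : Fin m → Pl n K) (N : ℕ)
    (A : MvPolynomial (Fin m) K), MvPolynomial.map (algebraMap K k) (hatX c Y N A) =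
      hatX (MvPolynomial.map (algebraMap K k) c) (fun i => MvPolynomial.map (algebraMap K k) (Y i)) N
        (MvPolynomial.map (algebraMap K k) A)) ∧
  ∀ (k : Type) [Field k] (n m D : ℕ) (c : Pl n k) (Y : Fin m → Pl n k) (N : ℕ) (A : MvPolynomial (Fin m) k),
    A.totalDegree ≤ N → c.totalDegree ≤ D → (∀ i, (Y i).totalDegree ≤ D) → (hatX c Y N A).totalDegree ≤ N * D

/-- (G1) A model. PROOF. Edit `Lib/MP_16285c_agS/G/PrimS.lean` (`StmtPrimS`: the same with `n = 2`, `Fin 2` → `Fin n`, `Fin 3` → `Fin (n + 1)`; `ξ = Fin.cons z x`). For `n = 0` the same proof works (`x : Fin 0 → E`). -/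
def StmtPrimX : Prop :=
  ∀ (k E : Type) [Field k] [CharZero k] [Field E] [Algebra k E] (n m : ℕ) (y : Fin m → E),
    IntermediateField.adjoin k (Set.range y) = ⊤ → Algebra.trdeg k E = n →
    ∃ (P : Pl (n + 1) k) (ξ : Fin (n + 1) → E), Irreducible P ∧ MonZ P ∧ GenN P ξ

/-- The matrix with the rows `∇P`, `Wd f 1`, …, `Wd f n`. -/
noncomputable def rowsX {k : Type} [Field k] {n : ℕ} (P : Pl (n + 1) k) (f : RM k (n + 1)) :
    Matrix (Fin (n + 1)) (Fin (n + 1)) (Pl (n + 1) k) :=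
  Matrix.of (Fin.cons (α := fun _ => Fin (n + 1) → Pl (n + 1) k) (fun l => MvPolynomial.pderiv l P)
    fun (i : Fin n) l => Pool.Agent.ZDO.Wd f i.succ l)

/-- (G2) The Jacobian. PROOF. Lemmas to copy: `exists_der`, `alg_range`, `not_dvd` of `Lib/MP_16285c_agS/G/JacS.lean` (they are stated for `Fin 3`; the proofs are general). Suppose that `P ∣ det`, so the matrix `M = (rowsX P f).map (aeval ξ)` over `E` has determinant `0` (`RingHom.map_det`) and there is `v ≠ 0` with `M *ᵥ v = 0` (`Matrix.exists_mulVec_eq_zero_iff`). Row `0`: `∑ l, (pderiv l P)(ξ) * v l = 0`, so (`exists_der`) there is a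
derivation `D : Derivation k E E` with `D (aeval ξ G) = ∑ l, aeval ξ (pderiv l G) * v l` for all `G`. Row `i.succ`: `D (fvn f ξ i.succ) = (∑ l, (Wd f i.succ l)(ξ) * v l) / (den_i(ξ)) ^ 2 = 0` (`Wd f i l = den_i ∂_l num_i - num_i ∂_l den_i`; quotient rule), and `fvn f ξ i.succ = ψ (ξ i.succ)`. Let `S = {z | D z = 0}`, a subfield of `E` containing `k` and all
`ψ (ξ i.succ)`. `E` is algebraic over `ψ.fieldRange` (`alg_range`), and `ψ (ξ 0)` is algebraic over `k(ψ (ξ 1), …)` (apply `ψ` to the monic equation `P(ξ) = 0` of `ξ 0`), so `ψ.fieldRange = k(ψ ξ)` is algebraic over `k(ψ (ξ i.succ)) ⊆ S`. So every `z : E` is algebraic over `S`, and `D = 0` (`derivation_eq_zero` in `ZDO/Jac.lean`). But `D (ξ l) = v l` (`G = X l`): a contradiction. -/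
def StmtJacX : Prop :=
  ∀ (k E : Type) [Field k] [CharZero k] [Field E] [Algebra k E] (n : ℕ) (P : Pl (n + 1) k) (f : RM k (n + 1))
    (ξ : Fin (n + 1) → E) (ψ : E →ₐ[k] E), Irreducible P → MonZ P → GenN P ξ → (∀ i, ¬ P ∣ f.den i) →
    (∀ i, fvn f ξ i = ψ (ξ i)) → ¬ P ∣ (rowsX P f).det

/-- (G3) The ambient map. PROOF (uses `StmtJacX`, `StmtHcn`; compare `Lib/MP_16285c_agS/G/Amb.lean`: `frac`, `common`). `ψ (ξ i) * e(ξ) = N_i(ξ)` with a common `e`, `¬ P ∣ e`. For `λ : Pl (n+1) k` let `f^λ` have the numerators `N_0 + λ * P, N_1, …, N_n` and the denominators `e`. `fvn f^λ ξ i = ψ (ξ i)`. `Jc f^λ = (Matrix.of (Wd f^λ)).det`, and `Wd f^λ i l = Wd f^0 i l` for `i ≠ 0`,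
`Wd f^1 0 l = Wd f^0 0 l + (e * ∂_l P - P * ∂_l e)`. By linearity of the determinant in the row `0` (`Matrix.det_updateRow_add`, `det_updateRow_smul`): `Jc f^1 - Jc f^0 = e * (rowsX P f^0).det - P * (some determinant)`. Since `P` is prime and divides neither `e` nor `(rowsX P f^0).det` (`StmtJacX`), it does not divide both `Jc f^0` and `Jc f^1`. `InvX f P` for that `f = f^λ`: `den`: `¬ P ∣ e`;
`keep`: `hcn f N P`, `N = P.totalDegree`, vanishes at `ξ` by `StmtHcn` (2): its value is `(dd f)(ξ) ^ N * P(ψ ξ) = 0`, so `hcn f N P = P * W`; and `fr (hcn f N P) = fr (dd f) ^ N * f.comp P` (`StmtHcn` (2) at the generic point of affine space; see `NoInvM.aeval_fv` in `Lib/MP_16285c_agS/G/NoInv.lean`), so take `E = (dd f) ^ N`, `N' = W`. -/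
def StmtAmbX : Prop :=
  ∀ (k E : Type) [Field k] [CharZero k] [Field E] [Algebra k E] (n : ℕ) (P : Pl (n + 1) k) (ξ : Fin (n + 1) → E)
    (ψ : E →ₐ[k] E), Irreducible P → MonZ P → GenN P ξ → ∃ f : RM k (n + 1), InvX f P ∧ ∀ i, fvn f ξ i = ψ (ξ i)

/-- (G4) Invariants. PROOF (uses `StmtHcn`). Edit `Lib/MP_16285c_agS/G/NoInv.lean` (`StmtNoInv`; `NoIX` is `NoInv` for `n + 1` variables). -/
def StmtNoInvX : Prop :=
  ∀ (k E : Type) [Field k] [Field E] [Algebra k E] (n : ℕ) (P : Pl (n + 1) k) (f : RM k (n + 1)) (ξ : Fin (n + 1) → E)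
    (ψ : E →ₐ[k] E), GenN P ξ → InvX f P → (∀ i, fvn f ξ i = ψ (ξ i)) →
    (∀ h : E, ψ h = h → ∃ c : k, h = algebraMap k E c) → NoIX f P

/-- (G5) Points of the model and points of `V(I)`. PROOF (uses `StmtHat`). Edit `Lib/MP_16285c_agS/G/Pts.lean` (`StmtPts`; there `hat` is `hatX`), for `n + 1` variables; the common denominators `c, Y` (of `cls I (X i)` in terms of `ξ`) and `d, Z` (of `ξ j` in terms of the `cls I`) do not depend on `b`, and `β = c * d^ * b^` with `d^ = hatX c Y d.totalDegree d`, `b^ = hatX c Y b.totalDegree b`. -/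
def StmtPtsX : Prop :=
  ∀ (k : Type) [Field k] (m : ℕ) (I : Ideal (MvPolynomial (Fin m) k)) [I.IsPrime] (n : ℕ) (P : Pl (n + 1) k)
    (ξ : Fin (n + 1) → FF I), Irreducible P → GenN P ξ →
    ∃ (c : Pl (n + 1) k) (Y : Fin m → Pl (n + 1) k) (d : MvPolynomial (Fin m) k) (Z : Fin (n + 1) → MvPolynomial (Fin m) k),
      MvPolynomial.aeval ξ c ≠ 0 ∧ cls I d ≠ 0 ∧
      (∀ i, cls I (MvPolynomial.X i) * MvPolynomial.aeval ξ c = MvPolynomial.aeval ξ (Y i)) ∧
      (∀ j, ξ j * cls I d = cls I (Z j)) ∧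
      ∀ b : MvPolynomial (Fin m) k, b ∉ I →
        ¬ P ∣ c * hatX c Y d.totalDegree d * hatX c Y b.totalDegree b ∧
        ∃ Υ : (Fin (n + 1) → k) → Fin m → k,
          (∀ w : Fin (n + 1) → k, MvPolynomial.eval w P = 0 →
            MvPolynomial.eval w (c * hatX c Y d.totalDegree d * hatX c Y b.totalDegree b) ≠ 0 →
            (∀ i, Υ w i * MvPolynomial.eval w c = MvPolynomial.eval w (Y i)) ∧
            (∀ A ∈ I, MvPolynomial.eval (Υ w) A = 0) ∧ MvPolynomial.eval (Υ w) b ≠ 0 ∧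
            ∀ (h : FF I) (A B : Pl (n + 1) k), h * MvPolynomial.aeval ξ B = MvPolynomial.aeval ξ A →
              MvPolynomial.eval w B ≠ 0 → ValAt I h (Υ w) (MvPolynomial.eval w A / MvPolynomial.eval w B)) ∧
          ∀ A : MvPolynomial (Fin m) k, A ∉ I → ∃ A' : Pl (n + 1) k, ¬ P ∣ A' ∧
            ∀ w : Fin (n + 1) → k, MvPolynomial.eval w P = 0 →
              MvPolynomial.eval w (c * hatX c Y d.totalDegree d * hatX c Y b.totalDegree b) ≠ 0 →
              MvPolynomial.eval w A' ≠ 0 → MvPolynomial.eval (Υ w) A ≠ 0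

/-- (G6) The growth hypothesis of the model (package `Gro`). -/
def StmtGroX : Prop :=
  ∀ (k : Type) [Field k] [CharZero k] (n : ℕ) (P : Pl (n + 1) k) (E' : Type) [Field E'] [Algebra k E']
    (ξ : Fin (n + 1) → E') (φ : E' →ₐ[k] E') (f : RM k (n + 1)) (m : ℕ) (y' : Fin m → E') (c : Pl (n + 1) k)
    (Y : Fin m → Pl (n + 1) k) (d : MvPolynomial (Fin m) k) (Z : Fin (n + 1) → MvPolynomial (Fin m) k),
    Irreducible P → MonZ P → GenN P ξ → InvX f P → (∀ i, fvn f ξ i = φ (ξ i)) → MvPolynomial.aeval ξ c ≠ 0 →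
    (∀ i, y' i * MvPolynomial.aeval ξ c = MvPolynomial.aeval ξ (Y i)) → MvPolynomial.aeval y' d ≠ 0 →
    (∀ j, ξ j * MvPolynomial.aeval y' d = MvPolynomial.aeval y' (Z j)) →
    (∀ r : ℕ, 1 ≤ r → r + 2 ≤ n → lamX k n r y' φ < (Module.finrank φ.fieldRange E' : ENNReal)) →
    GrX P (c * hatX c Y d.totalDegree d) f

/-- (G7) Dimension zero. PROOF. `FF I` is algebraic over `k` (`trdeg = 0`; `Algebra.trdeg_eq_zero_iff` or the like, for `Coord = MvPolynomial ⧸ I` and then its field of fractions), so every element of `FF I` is a constant (`k` algebraically closed; `IsAlgClosed.algebraMap_bijective_of_isIntegral`), `cls I (X i) = algebraMap k (FF I) (x i)`. Let `x : Fin m → k`, the constant sequence. `cls I A = algebraMap (eval x A)` for all `A`, so `A ∈ I ↔ eval x A = 0`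
(`cls I A = 0 ↔ A ∈ I`). `φ` fixes constants: `φ (cls I (X i)) = algebraMap (x i)`, so `ValAt` with `A = C (x i)`, `B = 1`. -/
def StmtZeroX : Prop :=
  ∀ (k : Type) [Field k] [IsAlgClosed k] (m : ℕ) (I : Ideal (MvPolynomial (Fin m) k)) [I.IsPrime],
    Algebra.trdeg k (MvPolynomial (Fin m) k ⧸ I) = 0 → ∀ φ : FF I →ₐ[k] FF I, ∀ b : MvPolynomial (Fin m) k, b ∉ I →
    ∃ x : ℕ → Fin m → k, (∀ n, (∀ A ∈ I, MvPolynomial.eval (x n) A = 0) ∧ MvPolynomial.eval (x n) b ≠ 0 ∧
      ∀ i, ValAt I (φ (cls I (MvPolynomial.X i))) (x n) (x (n + 1) i)) ∧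
      ∀ A : MvPolynomial (Fin m) k, A ∉ I → ∃ n, MvPolynomial.eval (x n) A ≠ 0

/-- (G8) The theorem. PROOF (uses `StmtModelX`, `StmtPrimX`, `StmtAmbX`, `StmtNoInvX`, `StmtPtsX`, `StmtHcn`, `StmtGroX`, `StmtZeroX`). Edit `Lib/MP_16285c_agS/G/Surf.lean`. `n = 0`: `StmtZeroX`. `n ≥ 1`: `P, ξ` from `StmtPrimX`, `f` from `StmtAmbX`, `NoIX f P` from `StmtNoInvX`; `c, Y, d, Z` from `StmtPtsX`, `e = c * hatX c Y d.totalDegree d` (not divisible by `P`: it divides `β`); `GrX P e f` by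
`StmtGroX` with `y' i = cls I (X i)` (`cls I A = aeval y' A`: `SurfM.cls_eq`). `StmtModelX` for `b := β` gives `w`; the rest is as in `Surf.lean`. -/
def StmtVarX : Prop :=
  ∀ (k : Type) [Field k] [IsAlgClosed k] [CharZero k] (m : ℕ) (I : Ideal (MvPolynomial (Fin m) k)) [I.IsPrime] (n : ℕ),
    Algebra.trdeg k (MvPolynomial (Fin m) k ⧸ I) = n → ∀ φ : FF I →ₐ[k] FF I,
    (∀ r : ℕ, 1 ≤ r → r + 2 ≤ n → lamX k n r (fun i => cls I (MvPolynomial.X i)) φ <
      (Module.finrank φ.fieldRange (FF I) : ENNReal)) →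
    (∀ h : FF I, φ h = h → ∃ c : k, h = algebraMap k (FF I) c) → ∀ b : MvPolynomial (Fin m) k, b ∉ I →
    ∃ x : ℕ → Fin m → k, (∀ n, (∀ A ∈ I, MvPolynomial.eval (x n) A = 0) ∧ MvPolynomial.eval (x n) b ≠ 0 ∧
      ∀ i, ValAt I (φ (cls I (MvPolynomial.X i))) (x n) (x (n + 1) i)) ∧
      ∀ A : MvPolynomial (Fin m) k, A ∉ I → ∃ n, MvPolynomial.eval (x n) A ≠ 0

end Pool.Agent.Lib.MP_16285c_agX
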