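import Pool.Agent.Lib.MP_16285c_agX.G.Spec
import Mathlib.RingTheory.AlgebraicIndependent.TranscendenceBasis
import Mathlib.RingTheory.AlgebraicIndependent.Transcendental

/-!
# Dimension zero (G7)
-/

set_option autoImplicit false

namespace Pool.Agent.Lib.MP_16285c_agX

open Pool.Agent.Lib.MP_16285c_ag Pool.Agent.Lib.MP_16285c_agN
open Pool.Agent.Lib.MP_16285c_agS.G (FF cls ValAt)

namespace GZeroXM

variable {k : Type} [Field k] {m : ℕ} (I : Ideal (MvPolynomial (Fin m) k)) [I.IsPrime]

omit [I.IsPrime] in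
theorem cls_eq (A : MvPolynomial (Fin m) k) :
    cls I A = MvPolynomial.aeval (fun i => cls I (MvPolynomial.X i)) A := by
  have h : (IsScalarTower.toAlgHom k (MvPolynomial (Fin m) k ⧸ I) (FF I)).comp (Ideal.Quotient.mkₐ k I) =
      MvPolynomial.aeval (fun i => cls I (MvPolynomial.X i)) := by
    apply MvPolynomial.algHom_ext
    intro i
    rw [MvPolynomial.aeval_X]
    rfl
  rw [← h]
  rfl

/-- Every element of the function field is a constant. -/
theorem const [IsAlgClosed k] (h : Algebra.trdeg k (MvPolynomial (Fin m) k ⧸ I) = 0) (z : MvPolynomial (Fin m) k ⧸ I) :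
    ∃ c : k, algebraMap k (MvPolynomial (Fin m) k ⧸ I) c = z := by
  have h1 : Algebra.IsAlgebraic k (MvPolynomial (Fin m) k ⧸ I) :=
    trdeg_eq_zero_iff.mp h
  have h2 : Algebra.IsIntegral k (MvPolynomial (Fin m) k ⧸ I) := h1.isIntegral
  exact (IsAlgClosed.algebraMap_bijective_of_isIntegral (k := k) (K := MvPolynomial (Fin m) k ⧸ I)).2 z

omit [I.IsPrime] in
/-- Values at the constant point. -/
theorem cls_const {x : Fin m → k} (hx : ∀ i, cls I (MvPolynomial.X i) = algebraMap k (FF I) (x i))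
    (A : MvPolynomial (Fin m) k) : cls I A = algebraMap k (FF I) (MvPolynomial.eval x A) := by
  have h1 : (fun i => cls I (MvPolynomial.X i)) = fun i => algebraMap k (FF I) (x i) := funext hx
  have h2 : (fun i => algebraMap k (FF I) (x i)) = ⇑(algebraMap k (FF I)) ∘ x := rfl
  rw [cls_eq, h1, h2, MvPolynomial.aeval_algebraMap_apply]
  rfl

omit [I.IsPrime] in
theorem cls_zero (A : MvPolynomial (Fin m) k) : cls I A = 0 ↔ A ∈ I := by
  constructor
  · intro h
    have h1 := (IsFractionRing.injective (MvPolynomial (Fin m) k ⧸ I) (FF I)) (h.trans (map_zero _).symm)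
    exact Ideal.Quotient.eq_zero_iff_mem.mp h1
  · intro h
    have h1 : Ideal.Quotient.mk I A = 0 := Ideal.Quotient.eq_zero_iff_mem.mpr h
    unfold cls
    rw [h1, map_zero]

theorem mem_iff {x : Fin m → k} (hx : ∀ i, cls I (MvPolynomial.X i) = algebraMap k (FF I) (x i))
    (A : MvPolynomial (Fin m) k) : A ∈ I ↔ MvPolynomial.eval x A = 0 := by
  rw [← cls_zero, cls_const I hx]
  exact map_eq_zero_iff _ (algebraMap k (FF I)).injective

end GZeroXM

open GZeroXM in
/-- (G7) Dimension zero. -/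
theorem tZeroX : StmtZeroX := by
  intro k _ _ m I _ htr φ b hb
  have hc : ∀ i, ∃ c : k, algebraMap k (MvPolynomial (Fin m) k ⧸ I) c = Ideal.Quotient.mk I (MvPolynomial.X i) :=
    fun i => const I htr _
  choose x hx0 using hc
  have hx : ∀ i, cls I (MvPolynomial.X i) = algebraMap k (FF I) (x i) := by
    intro i
    unfold cls
    rw [← hx0 i]
    exact (IsScalarTower.algebraMap_apply k (MvPolynomial (Fin m) k ⧸ I) (FF I) (x i)).symm
  refine ⟨fun _ => x, fun n => ⟨fun A hA => (mem_iff I hx A).mp hA, fun h => hb ((mem_iff I hx b).mpr h), fun i => ?_⟩,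
    fun A hA => ⟨0, fun h => hA ((mem_iff I hx A).mpr h)⟩⟩
  refine ⟨MvPolynomial.C (x i), 1, ?_, ?_, ?_⟩
  · rw [map_one]; exact one_ne_zero
  · rw [hx i, AlgHom.commutes, cls_const I hx, cls_const I hx, MvPolynomial.eval_C, map_one, map_one, mul_one]
  · rw [MvPolynomial.eval_C, map_one, mul_one]

end Pool.Agent.Lib.MP_16285c_agX
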